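import Pool.Agent.W78.EG.Defs

/-!
# Project EG, part CHR: the means of `b₁^Ω(d) b₂^Ω(d')` over the pairs in residue classes
(port of `Pool.Agent.W588.EX.CHR`, by helper215)
-/

set_option autoImplicit false

namespace Pool.Agent.W215.EG.CHR

open Finset Filter
open Pool.Agent.W78.GA (Qd nm dt ip dedge nm_mul nm_cast nm_eq_zero)
open Pool.Agent.W251.GX (Cm)
open Pool.Agent.W78.EG

variable {t c : ℤ} {f : ℕ} {χ : DirichletCharacter ℂ f}

theorem ipE (v u : Qd t c) : ip v u = v.re * u.re + t * v.im * u.re + c * v.im * u.im := rfl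

theorem dtE (v u : Qd t c) : dt v u = v.re * u.im - v.im * u.re := rfl

theorem lagr (hD : t ^ 2 < 4 * c) (v w : Qd t c) :
    (nm v : ℤ) * nm w = ip v w ^ 2 + t * ip v w * dt v w + c * dt v w ^ 2 := by
  rw [nm_cast hD, nm_cast hD, ipE, dtE]; ring

theorem reM (z w : Qd t c) : (z * w).re = z.re * w.re - c * (z.im * w.im) := by
  rw [QuadraticAlgebra.re_mul]; ring

theorem imM (z w : Qd t c) : (z * w).im = z.re * w.im + z.im * w.re + t * (z.im * w.im) := by
  rw [QuadraticAlgebra.im_mul]; ring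

theorem ip_dil (hD : t ^ 2 < 4 * c) (π v w : Qd t c) :
    ip (π * v) (π * w) = nm π * ip v w := by
  rw [nm_cast hD, ipE, ipE, reM, reM, imM, imM]; ring

theorem dt_dil (hD : t ^ 2 < 4 * c) (π v w : Qd t c) :
    dt (π * v) (π * w) = nm π * dt v w := by
  rw [nm_cast hD, dtE, dtE, reM, reM, imM, imM]; ring

theorem nmne (hD : t ^ 2 < 4 * c) {z : Qd t c} (hz : z ≠ 0) : nm z ≠ 0 := fun h =>
  hz ((nm_eq_zero hD).1 h)

theorem bO_cm (hD : t ^ 2 < 4 * c) (k : ℕ) (b : ℂ) (hk : 1 ≤ k) (hb : b ^ k = 1) :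
    Cm k (bO b : Qd t c → ℂ) where
  pos := hk
  mul := by
    intro z w hz hw
    unfold bO
    rw [nm_mul, ArithmeticFunction.cardFactors_mul (nmne hD hz) (nmne hD hw), pow_add]
  pow := by
    intro z
    unfold bO
    rw [← pow_mul, mul_comm, pow_mul, hb, one_pow]

theorem norm_one_of (k : ℕ) (b : ℂ) (hk : 1 ≤ k) (hb : b ^ k = 1) : ‖b‖ = 1 :=
  Complex.norm_eq_one_of_pow_eq_one hb (by omega)

/-- the relation -/
def RR (q a r : ℕ) (sw : Bool) (v w : Qd t c) : Prop :=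
  ip v w ≡ a * dt v w [ZMOD q] ∧ (nm (if sw then w else v) : ℤ) ≡ r * dt v w [ZMOD q]

theorem RR_rel (hD : t ^ 2 < 4 * c) (q a r : ℕ) (sw : Bool) :
    Rel q (RR q a r sw : Qd t c → Qd t c → Prop) where
  per := by
    intro v w v' w' h1 h2 h3 h4
    have e1 : v.re ≡ v'.re [ZMOD q] := (Int.modEq_iff_dvd.2 h1).symm
    have e2 : v.im ≡ v'.im [ZMOD q] := (Int.modEq_iff_dvd.2 h2).symm
    have e3 : w.re ≡ w'.re [ZMOD q] := (Int.modEq_iff_dvd.2 h3).symm
    have e4 : w.im ≡ w'.im [ZMOD q] := (Int.modEq_iff_dvd.2 h4).symm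
    have hip : ip v w ≡ ip v' w' [ZMOD q] := by
      rw [ipE, ipE]
      exact ((e1.mul e3).add (((Int.ModEq.refl t).mul e2).mul e3)).add
        (((Int.ModEq.refl c).mul e2).mul e4)
    have hdt : dt v w ≡ dt v' w' [ZMOD q] := by
      rw [dtE, dtE]; exact (e1.mul e4).sub (e2.mul e3)
    have hnmv : (nm v : ℤ) ≡ (nm v' : ℤ) [ZMOD q] := by
      rw [nm_cast hD, nm_cast hD]
      exact ((e1.pow 2).add (((Int.ModEq.refl t).mul e1).mul e2)).add
        ((Int.ModEq.refl c).mul (e2.pow 2))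
    have hnmw : (nm w : ℤ) ≡ (nm w' : ℤ) [ZMOD q] := by
      rw [nm_cast hD, nm_cast hD]
      exact ((e3.pow 2).add (((Int.ModEq.refl t).mul e3).mul e4)).add
        ((Int.ModEq.refl c).mul (e4.pow 2))
    have hnm : (nm (if sw then w else v) : ℤ) ≡ (nm (if sw then w' else v') : ℤ) [ZMOD q] := by
      cases sw
      · exact hnmv
      · exact hnmw
    constructor
    · rintro ⟨h5, h6⟩
      exact ⟨hip.symm.trans (h5.trans (hdt.mul_left _)), hnm.symm.trans (h6.trans (hdt.mul_left _))⟩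
    · rintro ⟨h5, h6⟩
      exact ⟨hip.trans (h5.trans (hdt.symm.mul_left _)), hnm.trans (h6.trans (hdt.symm.mul_left _))⟩
  dil := by
    intro π v w hc
    have hg : IsCoprime (q : ℤ) (nm π : ℤ) := Nat.isCoprime_iff_coprime.2 hc.symm
    have hcan : ∀ x y : ℤ, (nm π : ℤ) * x ≡ nm π * y [ZMOD q] → x ≡ y [ZMOD q] := by
      intro x y h
      rw [Int.modEq_iff_dvd] at h ⊢
      rw [← mul_sub] at h
      exact hg.dvd_of_dvd_mul_left h
    have hnm : (nm (if sw then π * w else π * v) : ℤ) = nm π * nm (if sw then w else v) := by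
      cases sw
      · simp [nm_mul]
      · simp [nm_mul]
    unfold RR
    rw [ip_dil hD, dt_dil hD, hnm, mul_left_comm (a : ℤ), mul_left_comm (r : ℤ)]
    constructor
    · rintro ⟨h5, h6⟩
      exact ⟨hcan _ _ h5, hcan _ _ h6⟩
    · rintro ⟨h5, h6⟩
      exact ⟨h5.mul_left _, h6.mul_left _⟩

/-- the condition on the pairs -/
def CC (t c : ℤ) (q a r : ℕ) (sw : Bool) (x y : ℕ) : Prop := ∃ n : ℕ, 0 < 2 * (n : ℤ) + t ∧
  (x * y : ℤ) = (n : ℤ) ^ 2 + t * n + c ∧ n ≡ a [MOD q] ∧ (if sw then y else x) ≡ r [MOD q]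

theorem CC_iff (hD : t ^ 2 < 4 * c) (ht : t = 0 ∨ t = 1) (q a r : ℕ) (sw : Bool) (v w : Qd t c)
    (hdt : dt v w = 1) (hpp : 0 < pp v w) :
    CC t c q a r sw (nm v) (nm w) ↔ RR q a r sw v w := by
  unfold pp at hpp
  rw [hdt, mul_one] at hpp
  have hip : 0 ≤ ip v w := by omega
  obtain ⟨m, hm⟩ : ∃ m : ℕ, ip v w = m := ⟨(ip v w).toNat, (Int.toNat_of_nonneg hip).symm⟩
  have hl := lagr hD v w
  rw [hdt, hm, one_pow, mul_one, mul_one] at hl
  rw [hm] at hpp
  unfold CC RR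
  rw [hdt, hm, mul_one, mul_one, Int.natCast_modEq_iff, Int.natCast_modEq_iff]
  have hsw : nm (if sw then w else v) = if sw then nm w else nm v := by cases sw <;> rfl
  rw [hsw]
  constructor
  · rintro ⟨n, h0, h1, h2, h3⟩
    have h4 : ((n : ℤ) - m) * (n + m + t) = 0 := by
      rw [hl] at h1
      linear_combination -h1
    have h5 : (n : ℤ) = m := by
      rcases mul_eq_zero.1 h4 with h | h
      · linarith
      · exfalso; linarith
    have h6 : n = m := by exact_mod_cast h5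
    subst h6
    exact ⟨h2, h3⟩
  · rintro ⟨h2, h3⟩
    exact ⟨m, hpp, hl, h2, h3⟩

open scoped Classical in
theorem core (hF : Fd t c f χ) (h1 : S_MAINX t c χ) (h2 : S_FINX t c)
    (hb : ∀ (N : ℕ) (b : ℂ), 1 ≤ N → b ^ N = 1 → b ≠ 1 → ∀ (q : ℕ) (β : Qd t c), 1 ≤ q →
      Bt χ (cl q β (fun z => (bO b z).re)) ∧ Bt χ (cl q β (fun z => (bO b z).im)))
    (k : ℕ) (b₁ b₂ : ℂ) (hk : 1 ≤ k) (hb₁ : b₁ ^ k = 1) (hb₂ : b₂ ^ k = 1) (hne : b₂ ≠ 1)
    (q a r : ℕ) (hq : 1 ≤ q) (sw : Bool) :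
    Tendsto (fun N : ℕ => (∑ p ∈ SP t c N, (if CC t c q a r sw p.1 p.2 then
      b₁ ^ ArithmeticFunction.cardFactors p.1 * b₂ ^ ArithmeticFunction.cardFactors p.2 else 0) /
      ((max p.1 p.2 : ℕ) : ℂ)) / (Real.log N : ℂ)) atTop (nhds 0) := by
  have hD : t ^ 2 < 4 * c := by
    have h3 := hF.disc
    have h4 := hF.three
    omega
  refine h2 (fun x y => if CC t c q a r sw x y then
      b₁ ^ ArithmeticFunction.cardFactors x * b₂ ^ ArithmeticFunction.cardFactors y else 0) ?_ ?_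
  · intro x y
    show ‖if CC t c q a r sw x y then _ else (0 : ℂ)‖ ≤ 1
    split_ifs
    · rw [norm_mul, norm_pow, norm_pow, norm_one_of k b₁ hk hb₁, norm_one_of k b₂ hk hb₂]
      simp
    · simp
  · intro s hs hs1 ε hε
    have hPr : Pr k (b₁ * b₂) (bO b₁ : Qd t c → ℂ) (bO b₂) :=
      ⟨bO_cm hD k b₁ hk hb₁, bO_cm hD k b₂ hk hb₂, fun π hπ => by
        unfold bO
        rw [ArithmeticFunction.cardFactors_apply_prime hπ, pow_one, pow_one]⟩
    obtain ⟨N₀, hN₀⟩ := h1 k (b₁ * b₂) (bO b₁) (bO b₂) hPr q hq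
      (fun β => hb k b₂ hk hb₂ hne q β hq) (RR q a r sw) (RR_rel hD q a r sw) s 1 s 1 hs hs1 le_rfl
      hs hs1 le_rfl ε hε
    refine ⟨N₀, fun N hN => ?_⟩
    have := hN₀ N hN
    convert this using 3 with X hX
    congr 1
    unfold AG
    refine sum_congr rfl fun e he => ?_
    rw [mem_filter] at he
    have hdt : dt e.1 e.2 = 1 := by
      have h3 := he.1
      unfold dedge at h3
      exact (mem_filter.1 h3).2
    unfold g2 bO
    beta_reduce
    have hiff := CC_iff hD hF.tt q a r sw e.1 e.2 hdt he.2.1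
    by_cases hc : CC t c q a r sw (nm e.1) (nm e.2)
    · rw [if_pos hc, if_pos (hiff.1 hc)]
    · rw [if_neg hc, if_neg (fun h => hc (hiff.2 h))]

theorem SP_swap {N : ℕ} {p : ℕ × ℕ} (hp : p ∈ SP t c N) : p.swap ∈ SP t c N := by
  classical
  unfold SP at hp ⊢
  rw [mem_filter, mem_product] at hp ⊢
  obtain ⟨⟨h1, h2⟩, n, hn0, hn⟩ := hp
  exact ⟨⟨h2, h1⟩, n, hn0, by rw [← hn]; exact mul_comm _ _⟩

theorem chr (hF : Fd t c f χ) (h1 : S_MAINX t c χ) (h2 : S_FINX t c)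
    (hb : ∀ (N : ℕ) (b : ℂ), 1 ≤ N → b ^ N = 1 → b ≠ 1 → ∀ (q : ℕ) (β : Qd t c), 1 ≤ q →
      Bt χ (cl q β (fun z => (bO b z).re)) ∧ Bt χ (cl q β (fun z => (bO b z).im))) :
    S_CHR t c := by
  classical
  intro k b₁ b₂ hk hb₁ hb₂ hne q a r hq
  by_cases hb2 : b₂ = 1
  · have hb1 : b₁ ≠ 1 := by
      rcases hne with h | h
      · exact h
      · exact absurd hb2 h
    refine (core hF h1 h2 hb k b₂ b₁ hk hb₂ hb₁ hb1 q a r hq true).congr fun N => ?_
    congr 1
    rw [sum_filter]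
    refine sum_nbij' Prod.swap Prod.swap (fun p hp => SP_swap hp) (fun p hp => SP_swap hp)
      (fun p _ => Prod.swap_swap p) (fun p _ => Prod.swap_swap p) fun p hp => ?_
    have hiff : CC t c q a r true p.1 p.2 ↔ Cd t c q a r p.swap := by
      unfold CC Cd
      simp only [if_true, Prod.fst_swap, Prod.snd_swap]
      constructor
      · rintro ⟨n, h0, h3, h4, h5⟩
        exact ⟨n, h0, by rw [mul_comm]; exact h3, h4, h5⟩
      · rintro ⟨n, h0, h3, h4, h5⟩
        exact ⟨n, h0, by rw [mul_comm]; exact h3, h4, h5⟩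
    by_cases hc : CC t c q a r true p.1 p.2
    · rw [if_pos hc, if_pos (hiff.1 hc)]
      simp only [Prod.fst_swap, Prod.snd_swap]
      rw [max_comm p.2 p.1, mul_comm]
    · rw [if_neg hc, if_neg (fun h => hc (hiff.2 h)), zero_div]
  · refine (core hF h1 h2 hb k b₁ b₂ hk hb₁ hb₂ hb2 q a r hq false).congr fun N => ?_
    congr 1
    rw [sum_filter]
    refine sum_congr rfl fun p hp => ?_
    have hiff : CC t c q a r false p.1 p.2 ↔ Cd t c q a r p := by
      unfold CC Cd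
      simp only [Bool.false_eq_true, if_false]
    by_cases hc : CC t c q a r false p.1 p.2
    · rw [if_pos hc, if_pos (hiff.1 hc)]
    · rw [if_neg hc, if_neg (fun h => hc (hiff.2 h)), zero_div]

end Pool.Agent.W215.EG.CHR
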