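import Pool.Agent.W78.GA.Basic

/-!
# Project EG: class number one for eight discriminants (by helper215)
-/

set_option autoImplicit false

namespace Pool.Agent.W215.EG.CN

open Pool.Agent.W78.GA

/-- there is no reduced form with `2 ≤ a` -/
lemma red_one {f a b m : ℤ} (hf : f = 8 ∨ f = 3 ∨ f = 7 ∨ f = 11 ∨ f = 19 ∨ f = 43 ∨ f = 67 ∨ f = 163)
    (ha : 0 < a) (h1 : -a ≤ b) (h2 : b ≤ a) (h3 : a ≤ m) (h : b ^ 2 - 4 * a * m = -f) : a = 1 := by
  have h4 : b ^ 2 ≤ a ^ 2 := by nlinarith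
  have h5 : 3 * a ^ 2 ≤ f := by nlinarith
  by_contra hne
  have ha2 : 2 ≤ a := by omega
  rcases hf with rfl | rfl | rfl | rfl | rfl | rfl | rfl | rfl
  · nlinarith
  · nlinarith
  · nlinarith
  · nlinarith
  · have h6 : a ≤ 2 := by nlinarith
    have : a = 2 := by omega
    subst this
    interval_cases b <;> omega
  · have h6 : a ≤ 3 := by nlinarith
    interval_cases a <;> interval_cases b <;> omega
  · have h6 : a ≤ 4 := by nlinarith
    interval_cases a <;> interval_cases b <;> omega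
  · have h6 : a ≤ 7 := by nlinarith
    interval_cases a <;> interval_cases b <;> omega

/-- the forms represent one -/
lemma rep1 {f : ℤ} (hf : f = 8 ∨ f = 3 ∨ f = 7 ∨ f = 11 ∨ f = 19 ∨ f = 43 ∨ f = 67 ∨ f = 163) :
    ∀ n : ℕ, ∀ a b m : ℤ, 0 < a → a.toNat ≤ n → b ^ 2 - 4 * a * m = -f →
      ∃ x y : ℤ, a * x ^ 2 + b * x * y + m * y ^ 2 = 1 := by
  have hfp : 0 < f := by omega
  intro n
  induction n with
  | zero =>
    intro a b m ha hn _
    omega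
  | succ n ih =>
    intro a b m ha hn h
    set q : ℤ := (b + a) / (2 * a) with hq
    have m1 := Int.emod_add_mul_ediv (b + a) (2 * a)
    have m2 := Int.emod_nonneg (b + a) (show (2 * a) ≠ 0 by omega)
    have m3 := Int.emod_lt_of_pos (b + a) (show 0 < 2 * a by omega)
    rw [← hq] at m1
    obtain ⟨b', hb'⟩ : ∃ b' : ℤ, b' = b - 2 * a * q := ⟨_, rfl⟩
    obtain ⟨m', hm'⟩ : ∃ m' : ℤ, m' = a * q ^ 2 - b * q + m := ⟨_, rfl⟩
    have l1 : -a ≤ b' := by linarith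
    have l2 : b' ≤ a := by linarith
    have hd : b' ^ 2 - 4 * a * m' = -f := by
      rw [← h, hb', hm']; ring
    have hm0 : 0 < m' := by nlinarith [sq_nonneg b']
    rcases lt_or_ge m' a with hlt | hge
    · obtain ⟨x, y, hxy⟩ := ih m' (-b') a hm0 (by omega) (by rw [← hd]; ring)
      refine ⟨-y - q * x, x, ?_⟩
      rw [← hxy, hb', hm']
      ring
    · have ha1 := red_one hf ha l1 l2 hge hd
      exact ⟨1, 0, by rw [ha1]; ring⟩

theorem cn1 (t c : ℤ) (h : (t, c) ∈ ([(0, 2), (1, 1), (1, 2), (1, 3), (1, 5), (1, 11), (1, 17),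
    (1, 41)] : List (ℤ × ℤ))) (d : ℕ) (r : ℤ) (hd : 1 ≤ d) (hr : (d : ℤ) ∣ r ^ 2 - t * r + c) :
    ∃ z₁ : Qd t c, nm z₁ = d ∧ lat d r z₁ ∧ ∀ z : Qd t c, lat d r z → z₁ ∣ z := by
  have hf : 4 * c - t ^ 2 = 8 ∨ 4 * c - t ^ 2 = 3 ∨ 4 * c - t ^ 2 = 7 ∨ 4 * c - t ^ 2 = 11 ∨
      4 * c - t ^ 2 = 19 ∨ 4 * c - t ^ 2 = 43 ∨ 4 * c - t ^ 2 = 67 ∨ 4 * c - t ^ 2 = 163 := by
    simp only [List.mem_cons, Prod.mk.injEq, List.not_mem_nil, or_false] at h
    rcases h with ⟨rfl, rfl⟩ | ⟨rfl, rfl⟩ | ⟨rfl, rfl⟩ | ⟨rfl, rfl⟩ | ⟨rfl, rfl⟩ | ⟨rfl, rfl⟩ |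
      ⟨rfl, rfl⟩ | ⟨rfl, rfl⟩ <;> norm_num
  have hD : t ^ 2 < 4 * c := by omega
  obtain ⟨m, hm⟩ := hr
  have hd0 : (0 : ℤ) < d := by exact_mod_cast hd
  obtain ⟨x, y, hxy⟩ := rep1 hf _ (d : ℤ) (t - 2 * r) m hd0 le_rfl (by
    linear_combination 4 * hm)
  refine ⟨⟨d * x - r * y, y⟩, ?_, ?_, ?_⟩
  · have h1 : (nm (⟨d * x - r * y, y⟩ : Qd t c) : ℤ) = d := by
      rw [nm_cast hD]
      simp only
      linear_combination (d : ℤ) * hxy + y ^ 2 * hm
    exact_mod_cast h1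
  · show (d : ℤ) ∣ (d * x - r * y) + r * y
    exact ⟨x, by ring⟩
  · intro z hz
    have hz' : (d : ℤ) ∣ z.re + r * z.im := hz
    obtain ⟨w, hw⟩ := hz'
    have hre : z.re = d * w - r * z.im := by linarith
    refine ⟨⟨d * x * w - r * x * z.im - r * y * w + t * y * w + m * y * z.im,
      x * z.im - y * w⟩, ?_⟩
    apply QuadraticAlgebra.ext
    · rw [QuadraticAlgebra.re_mul]
      simp only
      rw [hre]
      linear_combination (-(d * w - r * z.im)) * hxy - (y ^ 2 * w - x * y * z.im) * hm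
    · rw [QuadraticAlgebra.im_mul]
      simp only
      linear_combination (-z.im) * hxy

end Pool.Agent.W215.EG.CN
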